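import Pool.Agent.T6.H52.TB.Act

set_option autoImplicit false

/-! An explicit collision-free loop in the homology class `(1, 0, -1)` with small action
(masses `1/4, 1/2, 1/2`, period `8`). -/

namespace Pool.Agent.T6.H52.TB

open MeasureTheory intervalIntegral

/-- the winding number about `0` of the curve `γ` on `[0, T]` is `k` -/
def Deg (γ : ℝ → ℂ) (T : ℝ) (k : ℤ) : Prop :=
  ∃ φ : ℝ → ℝ, ContinuousOn φ (Set.Icc 0 T) ∧
    (∀ t ∈ Set.Icc 0 T, γ t = ((‖γ t‖ : ℝ) : ℂ) * Complex.exp ((φ t : ℂ) * Complex.I)) ∧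
    φ T - φ 0 = 2 * Real.pi * k

/-- angular velocity -/
noncomputable def om : ℝ := Real.pi / 4

/-- the competitor: body 0 oscillates on the real axis, bodies 1 and 2 move on ellipses -/
noncomputable def yc : Fin 3 → ℝ → ℂ := ![
  fun t => ⟨-(22 / 25) * Real.cos (om * t), 0⟩,
  fun t => ⟨11 / 20 + 11 / 50 * Real.cos (om * t), 11 / 10 * Real.sin (om * t)⟩,
  fun t => ⟨-(11 / 20) + 11 / 50 * Real.cos (om * t), -(11 / 10) * Real.sin (om * t)⟩]

noncomputable def yc' : Fin 3 → ℝ → ℂ := ![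
  fun t => ⟨22 / 25 * om * Real.sin (om * t), 0⟩,
  fun t => ⟨-(11 / 50) * om * Real.sin (om * t), 11 / 10 * om * Real.cos (om * t)⟩,
  fun t => ⟨-(11 / 50) * om * Real.sin (om * t), -(11 / 10) * om * Real.cos (om * t)⟩]

theorem hd_mk {f g : ℝ → ℝ} {f' g' t : ℝ} (h1 : HasDerivAt f f' t) (h2 : HasDerivAt g g' t) :
    HasDerivAt (fun s => (⟨f s, g s⟩ : ℂ)) (⟨f', g'⟩ : ℂ) t := by
  have h := h1.ofReal_comp.add (h2.ofReal_comp.mul_const Complex.I)
  refine (h.congr_deriv ?_).congr_of_eventuallyEq ?_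
  · exact (Complex.mk_eq_add_mul_I _ _).symm
  · exact Filter.Eventually.of_forall fun s => Complex.mk_eq_add_mul_I _ _

theorem hd_cos (t : ℝ) : HasDerivAt (fun t => Real.cos (om * t)) (-(om * Real.sin (om * t))) t := by
  have h := (Real.hasDerivAt_cos (om * t)).comp t ((hasDerivAt_id t).const_mul om)
  refine h.congr_deriv ?_
  simp; ring

theorem hd_sin (t : ℝ) : HasDerivAt (fun t => Real.sin (om * t)) (om * Real.cos (om * t)) t := by
  have h := (Real.hasDerivAt_sin (om * t)).comp t ((hasDerivAt_id t).const_mul om)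
  refine h.congr_deriv ?_
  simp; ring

theorem yc_deriv (i : Fin 3) (t : ℝ) : HasDerivAt (yc i) (yc' i t) t := by
  fin_cases i
  · refine (hd_mk ((hd_cos t).const_mul (-(22 / 25))) (hasDerivAt_const t (0:ℝ))).congr_deriv ?_
    apply Complex.ext
    · show _ = 22 / 25 * om * Real.sin (om * t)
      simp; ring
    · rfl
  · refine (hd_mk (((hd_cos t).const_mul (11 / 50)).const_add (11 / 20))
      ((hd_sin t).const_mul (11 / 10))).congr_deriv ?_
    apply Complex.ext
    · show _ = -(11 / 50) * om * Real.sin (om * t)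
      simp; ring
    · show _ = 11 / 10 * om * Real.cos (om * t)
      simp; ring
  · refine (hd_mk (((hd_cos t).const_mul (11 / 50)).const_add (-(11 / 20)))
      ((hd_sin t).const_mul (-(11 / 10)))).congr_deriv ?_
    apply Complex.ext
    · show _ = -(11 / 50) * om * Real.sin (om * t)
      simp; ring
    · show _ = -(11 / 10) * om * Real.cos (om * t)
      simp; ring

theorem om8 (t : ℝ) : om * (t + 8) = om * t + 2 * Real.pi := by unfold om; ring

theorem yc_per (i : Fin 3) (t : ℝ) : yc i (t + 8) = yc i t := by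
  fin_cases i <;> simp [yc, om8]

theorem yc'_cont (i : Fin 3) : Continuous (yc' i) := by
  have hmk : ∀ f g : ℝ → ℝ, Continuous f → Continuous g → Continuous (fun s => (⟨f s, g s⟩ : ℂ)) := by
    intro f g hf hg
    have : (fun s => (⟨f s, g s⟩ : ℂ)) = fun s => (f s : ℂ) + (g s : ℂ) * Complex.I := by
      funext s; exact Complex.mk_eq_add_mul_I _ _
    rw [this]; fun_prop
  fin_cases i
  · exact hmk _ _ (by fun_prop) (by fun_prop)
  · exact hmk _ _ (by fun_prop) (by fun_prop)
  · exact hmk _ _ (by fun_prop) (by fun_prop)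

theorem d01 (t : ℝ) : yc 0 t - yc 1 t =
    ⟨-(11 / 20 + 11 / 10 * Real.cos (om * t)), -(11 / 10 * Real.sin (om * t))⟩ := by
  apply Complex.ext
  · show -(22 / 25) * Real.cos (om * t) - (11 / 20 + 11 / 50 * Real.cos (om * t)) = _
    ring
  · show 0 - 11 / 10 * Real.sin (om * t) = _
    ring

theorem d12 (t : ℝ) : yc 1 t - yc 2 t = ⟨11 / 10, 11 / 5 * Real.sin (om * t)⟩ := by
  apply Complex.ext
  · show 11 / 20 + 11 / 50 * Real.cos (om * t) - (-(11 / 20) + 11 / 50 * Real.cos (om * t)) = _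
    ring
  · show 11 / 10 * Real.sin (om * t) - -(11 / 10) * Real.sin (om * t) = _
    ring

theorem d20 (t : ℝ) : yc 2 t - yc 0 t =
    ⟨-(11 / 20) + 11 / 10 * Real.cos (om * t), -(11 / 10 * Real.sin (om * t))⟩ := by
  apply Complex.ext
  · show -(11 / 20) + 11 / 50 * Real.cos (om * t) - -(22 / 25) * Real.cos (om * t) = _
    ring
  · show -(11 / 10) * Real.sin (om * t) - 0 = _
    ring

theorem n01sq (t : ℝ) : ‖yc 0 t - yc 1 t‖ ^ 2 = 605 / 400 + 121 / 100 * Real.cos (om * t) := by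
  rw [nsq, d01]
  simp only
  have := Real.sin_sq_add_cos_sq (om * t)
  linear_combination (121 / 100) * this

theorem n20sq (t : ℝ) : ‖yc 2 t - yc 0 t‖ ^ 2 = 605 / 400 - 121 / 100 * Real.cos (om * t) := by
  rw [nsq, d20]
  simp only
  have := Real.sin_sq_add_cos_sq (om * t)
  linear_combination (121 / 100) * this

theorem n12sq (t : ℝ) : ‖yc 1 t - yc 2 t‖ ^ 2 = 121 / 100 + 121 / 25 * Real.sin (om * t) ^ 2 := by
  rw [nsq, d12]
  simp only
  ring

theorem n01ne (t : ℝ) : yc 0 t - yc 1 t ≠ 0 := by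
  intro h
  have := n01sq t
  rw [h, norm_zero] at this
  have := Real.neg_one_le_cos (om * t)
  nlinarith

theorem n20ne (t : ℝ) : yc 2 t - yc 0 t ≠ 0 := by
  intro h
  have := n20sq t
  rw [h, norm_zero] at this
  have := Real.cos_le_one (om * t)
  nlinarith

theorem n12ne (t : ℝ) : yc 1 t - yc 2 t ≠ 0 := by
  intro h
  have := n12sq t
  rw [h, norm_zero] at this
  nlinarith [sq_nonneg (Real.sin (om * t))]

theorem yc_cf : ∀ i j, i ≠ j → ∀ t, yc i t ≠ yc j t := by
  intro i j hij t h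
  fin_cases i <;> fin_cases j
  · exact hij rfl
  · exact n01ne t (sub_eq_zero.mpr h)
  · exact n20ne t (sub_eq_zero.mpr h.symm)
  · exact n01ne t (sub_eq_zero.mpr h.symm)
  · exact hij rfl
  · exact n12ne t (sub_eq_zero.mpr h)
  · exact n20ne t (sub_eq_zero.mpr h)
  · exact n12ne t (sub_eq_zero.mpr h.symm)
  · exact hij rfl

/-- degree of `c * exp (i k om t) * g` with `Re g > 0` -/
theorem deg_of (γ g : ℝ → ℂ) (a : ℝ) (r : ℝ) (hr : 0 < r) (k : ℤ) (hg : Continuous g)
    (hp : ∀ t, 0 < (g t).re) (h8 : g 8 = g 0)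
    (he : ∀ t, γ t = (r : ℂ) * Complex.exp (((a + k * om * t : ℝ) : ℂ) * Complex.I) * g t) :
    Deg γ 8 k := by
  refine ⟨fun t => a + k * om * t + Complex.arg (g t), ?_, ?_, ?_⟩
  · refine Continuous.continuousOn (Continuous.add (by fun_prop) ?_)
    rw [continuous_iff_continuousAt]
    intro t
    exact ContinuousAt.comp (g := Complex.arg)
      (Complex.continuousAt_arg (Complex.mem_slitPlane_iff.mpr (Or.inl (hp t)))) hg.continuousAt
  · intro t _
    have h1 : ‖γ t‖ = r * ‖g t‖ := by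
      rw [he t, norm_mul, norm_mul, Complex.norm_exp_ofReal_mul_I, mul_one, Complex.norm_real,
        Real.norm_eq_abs, abs_of_pos hr]
    have h2 : ((‖g t‖ : ℝ) : ℂ) * Complex.exp ((Complex.arg (g t) : ℂ) * Complex.I) = g t :=
      Complex.norm_mul_exp_arg_mul_I (g t)
    rw [h1, Complex.ofReal_mul]
    have h3 : Complex.exp (((a + k * om * t + Complex.arg (g t) : ℝ) : ℂ) * Complex.I) =
        Complex.exp (((a + k * om * t : ℝ) : ℂ) * Complex.I) *
          Complex.exp ((Complex.arg (g t) : ℂ) * Complex.I) := by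
      rw [← Complex.exp_add]; congr 1; push_cast; ring
    rw [h3, he t]
    calc _ = (r : ℂ) * Complex.exp (((a + k * om * t : ℝ) : ℂ) * Complex.I) *
          (((‖g t‖ : ℝ) : ℂ) * Complex.exp ((Complex.arg (g t) : ℂ) * Complex.I)) := by rw [h2]
      _ = _ := by ring
  · simp only
    rw [h8]
    unfold om
    ring

theorem exp_om (a t : ℝ) (s : ℝ) : Complex.exp (((a + s * om * t : ℝ) : ℂ) * Complex.I) =
    ⟨Real.cos (a + s * om * t), Real.sin (a + s * om * t)⟩ := by
  rw [Complex.exp_mul_I, ← Complex.ofReal_cos, ← Complex.ofReal_sin, ← Complex.mk_eq_add_mul_I]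

theorem cont_mk (f g : ℝ → ℝ) (hf : Continuous f) (hg : Continuous g) :
    Continuous (fun s => (⟨f s, g s⟩ : ℂ)) := by
  have : (fun s => (⟨f s, g s⟩ : ℂ)) = fun s => (f s : ℂ) + (g s : ℂ) * Complex.I := by
    funext s; exact Complex.mk_eq_add_mul_I _ _
  rw [this]; fun_prop

theorem deg01 : Deg (fun t => yc 0 t - yc 1 t) 8 1 := by
  refine deg_of _ (fun t => (⟨1 + 1 / 2 * Real.cos (om * t), -(1 / 2 * Real.sin (om * t))⟩ : ℂ))
    Real.pi (11 / 10) (by norm_num) 1 (cont_mk _ _ (by fun_prop) (by fun_prop)) ?_ ?_ ?_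
  · intro t
    show 0 < 1 + 1 / 2 * Real.cos (om * t)
    have := Real.neg_one_le_cos (om * t)
    linarith
  · have h := om8 0
    rw [zero_add] at h
    simp only [h, mul_zero, zero_add, Real.cos_two_pi, Real.sin_two_pi, Real.cos_zero, Real.sin_zero]
  · intro t
    rw [d01, exp_om]
    have e : Real.pi + ((1:ℤ):ℝ) * om * t = om * t + Real.pi := by push_cast; ring
    rw [e, Real.cos_add_pi, Real.sin_add_pi]
    have := Real.sin_sq_add_cos_sq (om * t)
    apply Complex.ext
    · simp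
      linear_combination (11 / 20) * this
    · simp
      ring

theorem deg20 : Deg (fun t => yc 2 t - yc 0 t) 8 (-1) := by
  refine deg_of _ (fun t => (⟨1 - 1 / 2 * Real.cos (om * t), -(1 / 2 * Real.sin (om * t))⟩ : ℂ))
    0 (11 / 10) (by norm_num) (-1) (cont_mk _ _ (by fun_prop) (by fun_prop)) ?_ ?_ ?_
  · intro t
    show 0 < 1 - 1 / 2 * Real.cos (om * t)
    have := Real.cos_le_one (om * t)
    linarith
  · have h := om8 0
    rw [zero_add] at h
    simp only [h, mul_zero, zero_add, Real.cos_two_pi, Real.sin_two_pi, Real.cos_zero, Real.sin_zero]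
  · intro t
    rw [d20, exp_om]
    have e : (0:ℝ) + ((-1:ℤ):ℝ) * om * t = -(om * t) := by push_cast; ring
    rw [e, Real.cos_neg, Real.sin_neg]
    have := Real.sin_sq_add_cos_sq (om * t)
    apply Complex.ext
    · simp
      linear_combination (11 / 20) * this
    · simp
      ring

theorem deg12 : Deg (fun t => yc 1 t - yc 2 t) 8 0 := by
  refine deg_of _ (fun t => (⟨1, 2 * Real.sin (om * t)⟩ : ℂ))
    0 (11 / 10) (by norm_num) 0 (cont_mk _ _ (by fun_prop) (by fun_prop)) ?_ ?_ ?_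
  · intro t
    show (0:ℝ) < 1
    norm_num
  · have h := om8 0
    rw [zero_add] at h
    simp only [h, mul_zero, zero_add, Real.sin_two_pi, Real.sin_zero]
  · intro t
    rw [d12, exp_om]
    have e : (0:ℝ) + ((0:ℤ):ℝ) * om * t = 0 := by push_cast; ring
    rw [e, Real.cos_zero, Real.sin_zero]
    apply Complex.ext
    · simp
    · simp
      ring

noncomputable def mc : Fin 3 → ℝ := ![1 / 4, 1 / 2, 1 / 2]

theorem kin_yc (t : ℝ) : kin mc yc' t =
    121 / 100 * om ^ 2 * (3 / 10 + 1 / 5 * Real.cos (2 * (om * t))) := by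
  have h0 : ‖yc' 0 t‖ ^ 2 = (22 / 25 * om * Real.sin (om * t)) ^ 2 := by
    rw [nsq]; show (22 / 25 * om * Real.sin (om * t)) ^ 2 + 0 ^ 2 = _; ring
  have h1 : ‖yc' 1 t‖ ^ 2 = (11 / 50 * om * Real.sin (om * t)) ^ 2 + (11 / 10 * om * Real.cos (om * t)) ^ 2 := by
    rw [nsq]; show (-(11 / 50) * om * Real.sin (om * t)) ^ 2 + (11 / 10 * om * Real.cos (om * t)) ^ 2 = _; ring
  have h2 : ‖yc' 2 t‖ ^ 2 = (11 / 50 * om * Real.sin (om * t)) ^ 2 + (11 / 10 * om * Real.cos (om * t)) ^ 2 := by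
    rw [nsq]; show (-(11 / 50) * om * Real.sin (om * t)) ^ 2 + (-(11 / 10) * om * Real.cos (om * t)) ^ 2 = _; ring
  unfold kin
  rw [h0, h1, h2, Real.cos_two_mul]
  have m0 : mc 0 = 1 / 4 := rfl
  have m1 : mc 1 = 1 / 2 := rfl
  have m2 : mc 2 = 1 / 2 := rfl
  rw [m0, m1, m2]
  have := Real.sin_sq_add_cos_sq (om * t)
  linear_combination (121 / 1000 * om ^ 2) * this

theorem pot_yc (t : ℝ) : pot mc yc t ≤ 35 / 66 := by
  have m0 : mc 0 = 1 / 4 := rfl
  have m1 : mc 1 = 1 / 2 := rfl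
  have m2 : mc 2 = 1 / 2 := rfl
  set c := Real.cos (om * t) with hc
  have c1 := Real.cos_le_one (om * t)
  have c2 := Real.neg_one_le_cos (om * t)
  set p := ‖yc 0 t - yc 1 t‖ with hp
  set r := ‖yc 2 t - yc 0 t‖ with hr
  set d := ‖yc 1 t - yc 2 t‖ with hd
  have hp0 : 0 < p := norm_pos_iff.mpr (n01ne t)
  have hr0 : 0 < r := norm_pos_iff.mpr (n20ne t)
  have hd0 : 0 < d := norm_pos_iff.mpr (n12ne t)
  have hp2 : p ^ 2 = 605 / 400 + 121 / 100 * c := n01sq t
  have hr2 : r ^ 2 = 605 / 400 - 121 / 100 * c := n20sq t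
  have hd2 : d ^ 2 = 121 / 100 + 121 / 25 * Real.sin (om * t) ^ 2 := n12sq t
  have hd1 : 11 / 10 ≤ d := by
    have : (11 / 10 : ℝ) ^ 2 ≤ d ^ 2 := by rw [hd2]; nlinarith [sq_nonneg (Real.sin (om * t))]
    exact le_of_sq_le_sq this hd0.le
  have hq : 363 / 400 ≤ p * r := by
    have h1 : (363 / 400 : ℝ) ^ 2 ≤ (p * r) ^ 2 := by
      rw [mul_pow, hp2, hr2]
      nlinarith [mul_nonneg (sub_nonneg.mpr c1) (by linarith : (0:ℝ) ≤ 1 + c)]
    exact le_of_sq_le_sq h1 (by positivity)
  have hs : 1 / p + 1 / r ≤ 80 / 33 := by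
    have h1 : 1 / p + 1 / r = (p + r) / (p * r) := by field_simp; ring
    rw [h1, div_le_iff₀ (by positivity)]
    have h2 : (p + r) ^ 2 ≤ (80 / 33 * (p * r)) ^ 2 := by
      have h3 : (p + r) ^ 2 = 605 / 200 + 2 * (p * r) := by
        have : (p + r) ^ 2 = p ^ 2 + r ^ 2 + 2 * (p * r) := by ring
        rw [this, hp2, hr2]; ring
      rw [h3]
      nlinarith
    exact le_of_sq_le_sq h2 (by positivity)
  have hdd : 1 / d ≤ 10 / 11 := by
    rw [div_le_div_iff₀ hd0 (by norm_num)]; linarith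
  unfold pot
  rw [m0, m1, m2]
  have e : 1 / 4 * (1 / 2) / p + 1 / 2 * (1 / 2) / d + 1 / 2 * (1 / 4) / r =
      1 / 8 * (1 / p + 1 / r) + 1 / 4 * (1 / d) := by ring
  rw [← hp, ← hr, ← hd, e]
  linarith

theorem action_yc : action mc 8 yc yc' ≤ 2904 / 1000 * om ^ 2 + 140 / 33 := by
  have cx : ∀ i, Continuous (yc i) := fun i =>
    continuous_iff_continuousAt.mpr fun t => (yc_deriv i t).continuousAt
  have cont : Continuous (fun t => kin mc yc' t + pot mc yc t) := by
    unfold kin pot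
    have c0 := yc'_cont 0; have c1 := yc'_cont 1; have c2 := yc'_cont 2
    have d0 := cx 0; have d1 := cx 1; have d2 := cx 2
    refine Continuous.add (by fun_prop) ?_
    refine Continuous.add (Continuous.add ?_ ?_) ?_
    · exact continuous_const.div (by fun_prop) fun t => norm_ne_zero_iff.mpr (n01ne t)
    · exact continuous_const.div (by fun_prop) fun t => norm_ne_zero_iff.mpr (n12ne t)
    · exact continuous_const.div (by fun_prop) fun t => norm_ne_zero_iff.mpr (n20ne t)
  have dF : ∀ t, HasDerivAt (fun t => 121 / 100 * om ^ 2 * (3 / 10 * t) +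
      121 / 1000 * om * Real.sin (2 * (om * t)) + 35 / 66 * t)
      (121 / 100 * om ^ 2 * (3 / 10 + 1 / 5 * Real.cos (2 * (om * t))) + 35 / 66) t := by
    intro t
    have hs : HasDerivAt (fun t => Real.sin (2 * (om * t))) (Real.cos (2 * (om * t)) * (2 * om)) t := by
      have h := (Real.hasDerivAt_sin (2 * (om * t))).comp t
        (((hasDerivAt_id t).const_mul om).const_mul 2)
      refine h.congr_deriv ?_
      simp
    have h := ((((hasDerivAt_id t).const_mul (3 / 10)).const_mul (121 / 100 * om ^ 2)).add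
      (hs.const_mul (121 / 1000 * om))).add ((hasDerivAt_id t).const_mul (35 / 66))
    refine h.congr_deriv ?_
    ring
  have hle : action mc 8 yc yc' ≤ ∫ t in (0:ℝ)..8,
      (121 / 100 * om ^ 2 * (3 / 10 + 1 / 5 * Real.cos (2 * (om * t))) + 35 / 66) := by
    unfold action
    refine integral_mono_on (by norm_num) (cont.intervalIntegrable _ _)
      (Continuous.intervalIntegrable (by fun_prop) _ _) ?_
    intro t _
    rw [kin_yc]
    linarith [pot_yc t]
  refine hle.trans (le_of_eq ?_)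
  rw [integral_eq_sub_of_hasDerivAt (fun t _ => dF t) (Continuous.intervalIntegrable (by fun_prop) _ _)]
  have h8 : Real.sin (2 * (om * 8)) = 0 := by
    have : 2 * (om * 8) = (4 : ℕ) * Real.pi := by unfold om; push_cast; ring
    rw [this]; exact Real.sin_nat_mul_pi 4
  rw [h8]
  simp
  ring

end Pool.Agent.T6.H52.TB
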