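import Mathlib

set_option autoImplicit false

/-! The action of a periodic solution of the planar three-body problem is `-3 E T`
(virial identity and conservation of the energy); for problem MP_c8123f_an. -/

namespace Pool.Agent.T6.H52.TB

open MeasureTheory intervalIntegral

/-- kinetic energy for the velocities `v` -/
noncomputable def kin (m : Fin 3 → ℝ) (v : Fin 3 → ℝ → ℂ) (t : ℝ) : ℝ :=
  (m 0 * ‖v 0 t‖ ^ 2 + m 1 * ‖v 1 t‖ ^ 2 + m 2 * ‖v 2 t‖ ^ 2) / 2

/-- the force function `U` at the positions `x` -/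
noncomputable def pot (m : Fin 3 → ℝ) (x : Fin 3 → ℝ → ℂ) (t : ℝ) : ℝ :=
  m 0 * m 1 / ‖x 0 t - x 1 t‖ + m 1 * m 2 / ‖x 1 t - x 2 t‖ + m 2 * m 0 / ‖x 2 t - x 0 t‖

/-- the action of a loop `x` with velocities `v` over `[0, T]` -/
noncomputable def action (m : Fin 3 → ℝ) (T : ℝ) (x v : Fin 3 → ℝ → ℂ) : ℝ :=
  ∫ t in (0:ℝ)..T, (kin m v t + pot m x t)

/-- the acceleration given by Newton's law -/
noncomputable def accel (m : Fin 3 → ℝ) (x : Fin 3 → ℝ → ℂ) (i : Fin 3) (t : ℝ) : ℂ :=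
  ∑ j ∈ Finset.univ.erase i, (m j : ℂ) * (x j t - x i t) / ((‖x j t - x i t‖ : ℝ) : ℂ) ^ 3

theorem hd_re {f : ℝ → ℂ} {f' : ℂ} {t : ℝ} (h : HasDerivAt f f' t) :
    HasDerivAt (fun s => (f s).re) f'.re t :=
  (Complex.reCLM.hasFDerivAt.comp_hasDerivAt t h)

theorem hd_im {f : ℝ → ℂ} {f' : ℂ} {t : ℝ} (h : HasDerivAt f f' t) :
    HasDerivAt (fun s => (f s).im) f'.im t :=
  (Complex.imCLM.hasFDerivAt.comp_hasDerivAt t h)

theorem nsq (z : ℂ) : ‖z‖ ^ 2 = z.re ^ 2 + z.im ^ 2 := by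
  rw [← Complex.normSq_eq_norm_sq, Complex.normSq_apply]; ring

theorem hd_nsq {f : ℝ → ℂ} {f' : ℂ} {t : ℝ} (h : HasDerivAt f f' t) :
    HasDerivAt (fun s => ‖f s‖ ^ 2) (2 * ((f t).re * f'.re + (f t).im * f'.im)) t := by
  have h1 := ((hd_re h).pow 2).add ((hd_im h).pow 2)
  refine (h1.congr_deriv ?_).congr_of_eventuallyEq ?_
  · simp; ring
  · exact Filter.Eventually.of_forall fun s => nsq _

theorem hd_norm {f : ℝ → ℂ} {f' : ℂ} {t : ℝ} (h : HasDerivAt f f' t) (h0 : f t ≠ 0) :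
    HasDerivAt (fun s => ‖f s‖) (((f t).re * f'.re + (f t).im * f'.im) / ‖f t‖) t := by
  have hn : 0 < ‖f t‖ := norm_pos_iff.mpr h0
  have h1 := (hd_nsq h).sqrt (by positivity)
  refine (h1.congr_deriv ?_).congr_of_eventuallyEq ?_
  · rw [Real.sqrt_sq hn.le]; field_simp
  · exact Filter.Eventually.of_forall fun s => by
      show ‖f s‖ = Real.sqrt (‖f s‖ ^ 2)
      rw [Real.sqrt_sq (norm_nonneg _)]

/-- derivative of `c / |z|` -/
theorem hd_inv {f : ℝ → ℂ} {f' : ℂ} {t : ℝ} (c : ℝ) (h : HasDerivAt f f' t) (h0 : f t ≠ 0) :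
    HasDerivAt (fun s => c / ‖f s‖) (-(c * ((f t).re * f'.re + (f t).im * f'.im) / ‖f t‖ ^ 3)) t := by
  have hn : ‖f t‖ ≠ 0 := norm_ne_zero_iff.mpr h0
  have h1 := (hasDerivAt_const t c).div (hd_norm h h0) hn
  refine h1.congr_deriv ?_
  field_simp
  ring

theorem accel_re (m : Fin 3 → ℝ) (x : Fin 3 → ℝ → ℂ) (i j k : Fin 3) (hij : i ≠ j) (hik : i ≠ k)
    (hjk : j ≠ k) (t : ℝ) :
    (accel m x i t).re = m j * ((x j t).re - (x i t).re) / ‖x j t - x i t‖ ^ 3 +
      m k * ((x k t).re - (x i t).re) / ‖x k t - x i t‖ ^ 3 ∧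
    (accel m x i t).im = m j * ((x j t).im - (x i t).im) / ‖x j t - x i t‖ ^ 3 +
      m k * ((x k t).im - (x i t).im) / ‖x k t - x i t‖ ^ 3 := by
  have he : (Finset.univ.erase i : Finset (Fin 3)) = {j, k} := by
    revert i j k; decide
  unfold accel
  rw [he, Finset.sum_pair hjk]
  have e : ∀ l : Fin 3, (m l : ℂ) * (x l t - x i t) / ((‖x l t - x i t‖ : ℝ) : ℂ) ^ 3 =
      ((m l / ‖x l t - x i t‖ ^ 3 : ℝ) : ℂ) * (x l t - x i t) := by
    intro l; push_cast; ring
  rw [e j, e k]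
  constructor
  · rw [Complex.add_re, Complex.re_ofReal_mul, Complex.re_ofReal_mul, Complex.sub_re, Complex.sub_re]
    ring
  · rw [Complex.add_im, Complex.im_ofReal_mul, Complex.im_ofReal_mul, Complex.sub_im, Complex.sub_im]
    ring

/-- **Virial identity.** -/
theorem action_eq (m : Fin 3 → ℝ) (T : ℝ) (x v : Fin 3 → ℝ → ℂ)
    (hx : ∀ i t, HasDerivAt (x i) (v i t) t) (hv : ∀ i t, HasDerivAt (v i) (accel m x i t) t)
    (hc : ∀ i j, i ≠ j → ∀ t, x i t ≠ x j t)
    (px : ∀ i, x i T = x i 0) (pv : ∀ i, v i T = v i 0) :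
    action m T x v = -3 * T * (kin m v 0 - pot m x 0) := by
  -- conservation of the energy
  have n01 : ∀ t, x 0 t - x 1 t ≠ 0 := fun t => sub_ne_zero.mpr (hc 0 1 (by decide) t)
  have n12 : ∀ t, x 1 t - x 2 t ≠ 0 := fun t => sub_ne_zero.mpr (hc 1 2 (by decide) t)
  have n20 : ∀ t, x 2 t - x 0 t ≠ 0 := fun t => sub_ne_zero.mpr (hc 2 0 (by decide) t)
  have dE : ∀ t, HasDerivAt (fun t => kin m v t - pot m x t) 0 t := by
    intro t
    have k0 := (hd_nsq (hv 0 t)).const_mul (m 0)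
    have k1 := (hd_nsq (hv 1 t)).const_mul (m 1)
    have k2 := (hd_nsq (hv 2 t)).const_mul (m 2)
    have u01 := hd_inv (m 0 * m 1) ((hx 0 t).sub (hx 1 t)) (n01 t)
    have u12 := hd_inv (m 1 * m 2) ((hx 1 t).sub (hx 2 t)) (n12 t)
    have u20 := hd_inv (m 2 * m 0) ((hx 2 t).sub (hx 0 t)) (n20 t)
    have h := (((k0.add k1).add k2).div_const 2).sub ((u01.add u12).add u20)
    refine h.congr_deriv ?_
    obtain ⟨a0, b0⟩ := accel_re m x 0 1 2 (by decide) (by decide) (by decide) t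
    obtain ⟨a1, b1⟩ := accel_re m x 1 0 2 (by decide) (by decide) (by decide) t
    obtain ⟨a2, b2⟩ := accel_re m x 2 0 1 (by decide) (by decide) (by decide) t
    rw [a0, b0, a1, b1, a2, b2, norm_sub_rev (x 1 t) (x 0 t), norm_sub_rev (x 0 t) (x 2 t),
      norm_sub_rev (x 2 t) (x 1 t)]
    simp only [Complex.sub_re, Complex.sub_im, Pi.sub_apply]
    ring
  have cE : ∀ t, kin m v t - pot m x t = kin m v 0 - pot m x 0 := by
    intro t
    exact is_const_of_deriv_eq_zero (fun s => (dE s).differentiableAt) (fun s => (dE s).deriv) t 0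
  -- the virial function
  set J : ℝ → ℝ := fun t =>
    m 0 * ((x 0 t).re * (v 0 t).re + (x 0 t).im * (v 0 t).im) +
    m 1 * ((x 1 t).re * (v 1 t).re + (x 1 t).im * (v 1 t).im) +
    m 2 * ((x 2 t).re * (v 2 t).re + (x 2 t).im * (v 2 t).im) with hJ
  have dJ : ∀ t, HasDerivAt J (2 * kin m v t - pot m x t) t := by
    intro t
    have g : ∀ i : Fin 3, HasDerivAt (fun t => (x i t).re * (v i t).re + (x i t).im * (v i t).im)
        (((v i t).re * (v i t).re + (x i t).re * (accel m x i t).re) +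
          ((v i t).im * (v i t).im + (x i t).im * (accel m x i t).im)) t := by
      intro i
      exact ((hd_re (hx i t)).mul (hd_re (hv i t))).add ((hd_im (hx i t)).mul (hd_im (hv i t)))
    have h := (((g 0).const_mul (m 0)).add ((g 1).const_mul (m 1))).add ((g 2).const_mul (m 2))
    refine h.congr_deriv ?_
    obtain ⟨a0, b0⟩ := accel_re m x 0 1 2 (by decide) (by decide) (by decide) t
    obtain ⟨a1, b1⟩ := accel_re m x 1 0 2 (by decide) (by decide) (by decide) t
    obtain ⟨a2, b2⟩ := accel_re m x 2 0 1 (by decide) (by decide) (by decide) t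
    rw [a0, b0, a1, b1, a2, b2, norm_sub_rev (x 1 t) (x 0 t), norm_sub_rev (x 0 t) (x 2 t),
      norm_sub_rev (x 2 t) (x 1 t)]
    unfold kin pot
    have q : ∀ (c : ℝ) (z : ℂ), z ≠ 0 → c / ‖z‖ = c * (z.re ^ 2 + z.im ^ 2) / ‖z‖ ^ 3 := by
      intro c z hz
      have : ‖z‖ ≠ 0 := norm_ne_zero_iff.mpr hz
      rw [← nsq]; field_simp
    rw [q _ _ (n01 t), q _ _ (n12 t), q _ _ (n20 t), nsq, nsq, nsq]
    simp only [Complex.sub_re, Complex.sub_im]
    ring
  have dF : ∀ t, HasDerivAt (fun t => 2 * J t - 3 * (kin m v 0 - pot m x 0) * t)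
      (kin m v t + pot m x t) t := by
    intro t
    have h := ((dJ t).const_mul 2).sub ((hasDerivAt_id t).const_mul (3 * (kin m v 0 - pot m x 0)))
    refine h.congr_deriv ?_
    have := cE t
    linear_combination 3 * this
  have cv : ∀ i, Continuous (v i) := fun i =>
    continuous_iff_continuousAt.mpr fun t => (hv i t).continuousAt
  have cx : ∀ i, Continuous (x i) := fun i =>
    continuous_iff_continuousAt.mpr fun t => (hx i t).continuousAt
  have cont : Continuous (fun t => kin m v t + pot m x t) := by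
    unfold kin pot
    have c0 := cv 0; have c1 := cv 1; have c2 := cv 2
    have d0 := cx 0; have d1 := cx 1; have d2 := cx 2
    refine Continuous.add (by fun_prop) ?_
    refine Continuous.add (Continuous.add ?_ ?_) ?_
    · exact continuous_const.div (by fun_prop) fun t => norm_ne_zero_iff.mpr (n01 t)
    · exact continuous_const.div (by fun_prop) fun t => norm_ne_zero_iff.mpr (n12 t)
    · exact continuous_const.div (by fun_prop) fun t => norm_ne_zero_iff.mpr (n20 t)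
  unfold action
  rw [integral_eq_sub_of_hasDerivAt (fun t _ => dF t) (cont.intervalIntegrable _ _)]
  have hJT : J T = J 0 := by
    simp only [hJ, px, pv]
  rw [hJT]
  ring

end Pool.Agent.T6.H52.TB
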